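import Pool.Agent.Z704.Defs
import Pool.Agent.Y248.BSD14.Omega
import Pool.Agent.W646.MT.LAT

/-!
# The real period of the negative twists of `X_0(14)` (helper700's part Z704-OMEGA)

The lattice is rotated by `i`; general lemmas by helper248 (`Pool/Agent/Y248/BSD14/Omega.lean`).
-/

set_option autoImplicit false

namespace Pool.Agent.Z388

open Set Filter Topology PeriodPair MeasureTheory
open Pool.Agent.Y248.BSD14 (per image_eq psi_WM)
open Pool.Agent.W646.MT (scale mem_scale scale_g2 scale_g3)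

theorem omega_neg (L : PeriodPair) (Op Om : ℝ) (hOp : 0 < Op) (hOm : 0 < Om)
    (hg2 : L.g₂ = -215 / 12) (hg3 : L.g₃ = 5291 / 216)
    (hL0 : ∀ w : ℂ, w ∈ L.lattice ↔ ∃ a b : ℤ, 2 ∣ a - b ∧ w = a * Op + b * Om * Complex.I)
    (M : ℤ) (hM : M % 4 = 1) (hM0 : M < 0) :
    Y700.Omega (Y700.WM M) = 2 * Om / Real.sqrt (-M) := by
  have hM0' : (M : ℝ) < 0 := by exact_mod_cast hM0
  set N : ℝ := -M with hN
  have hN0 : 0 < N := by rw [hN]; linarith
  have hMN : (M : ℝ) = -N := by rw [hN]; ring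
  -- the rotated lattice
  set L' : PeriodPair := scale L Complex.I Complex.I_ne_zero with hL'
  have hL : ∀ w : ℂ, w ∈ L'.lattice ↔
      ∃ a b : ℤ, 2 ∣ a - b ∧ w = a * Om + b * Op * Complex.I := by
    intro w
    have h1 : w = Complex.I * (-Complex.I * w) := by
      rw [← mul_assoc, mul_neg, Complex.I_mul_I]
      ring
    rw [h1, hL', ← mem_scale L Complex.I Complex.I_ne_zero, hL0, ← h1]
    constructor
    · rintro ⟨a, b, ⟨c, hab⟩, h⟩
      refine ⟨-b, a, ⟨c - a, by omega⟩, ?_⟩
      have h2 : w = Complex.I * (a * Op + b * Om * Complex.I) := by rw [← h, ← h1]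
      rw [h2]
      push_cast
      linear_combination ((b : ℂ) * Om) * Complex.I_mul_I
    · rintro ⟨a, b, ⟨c, hab⟩, h⟩
      refine ⟨b, -a, ⟨b - c + (a - b) , by omega⟩, ?_⟩
      rw [h]
      push_cast
      linear_combination (-((b : ℂ) * Op)) * Complex.I_mul_I
  have hg2' : L'.g₂ = -215 / 12 := by
    rw [hL', scale_g2, hg2, Complex.I_pow_four]
    norm_num
  have hg3' : L'.g₃ = -5291 / 216 := by
    have h1 : Complex.I ^ 6 = -1 := by
      have : Complex.I ^ 6 = Complex.I ^ 4 * Complex.I ^ 2 := by ring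
      rw [this, Complex.I_pow_four, Complex.I_sq, one_mul]
    rw [hL', scale_g3, hg3, h1]
    norm_num
  have h2T : ((2 * Om : ℝ) : ℂ) ∈ L'.lattice := by
    rw [hL]
    exact ⟨2, 0, ⟨1, by norm_num⟩, by push_cast; ring⟩
  have hnm : ∀ x : ℝ, 0 < x → x < 2 * Om → (x : ℂ) ∉ L'.lattice := by
    intro x hx0 hx1 hx
    obtain ⟨a, b, ⟨c, hab⟩, h⟩ := (hL _).1 hx
    have hi := congrArg Complex.im h
    have hr := congrArg Complex.re h
    simp at hi hr
    rcases hi with hi | hi
    · subst hi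
      rw [hr] at hx0 hx1
      have h2 : (0 : ℝ) < a := by
        by_contra hn
        push Not at hn
        have := mul_nonpos_of_nonpos_of_nonneg hn hOm.le
        linarith
      have h3 : (a : ℝ) < 2 := by
        by_contra hn
        push Not at hn
        nlinarith
      have h4 : (0 : ℤ) < a := by exact_mod_cast h2
      have h5 : a < (2 : ℤ) := by exact_mod_cast h3
      omega
    · exact absurd hi hOp.ne'
  have hc : ∀ l ∈ L'.lattice, (starRingEnd ℂ) l ∈ L'.lattice := by
    intro l hl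
    obtain ⟨a, b, ⟨c, hab⟩, rfl⟩ := (hL _).1 hl
    rw [hL]
    refine ⟨a, -b, ⟨c + b, by omega⟩, ?_⟩
    simp
  have huniq : ∀ x : ℝ, 4 * x ^ 3 - (-215 / 12) * x - (-5291 / 216) = 0 → x = -13 / 12 := by
    intro x hx
    have h1 : (x + 13 / 12) * (4 * x ^ 2 - 13 / 3 * x + 407 / 18) = 0 := by
      linear_combination hx
    rcases mul_eq_zero.1 h1 with h | h
    · linarith
    · exfalso
      nlinarith [sq_nonneg (x - 13 / 24)]
  obtain ⟨p, q, hd, hq, hode, h0, h1⟩ := per L' Om hOm h2T hnm hc (-215 / 12) (-5291 / 216)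
    (-13 / 12) (by rw [hg2']; push_cast; ring) (by rw [hg3']; push_cast; ring) huniq
  obtain ⟨hinj, himg⟩ := image_eq Om hOm p q _ hd hq h0 h1
  have hpsi : ∀ v : ℝ, Y700.psi (Y700.WM M) (N * (v + 1 / 12)) =
      N ^ 3 * (4 * v ^ 3 - (-215 / 12) * v - (-5291 / 216)) := by
    intro v
    rw [psi_WM M hM, hMN]
    ring
  have hset : {x : ℝ | 0 < Y700.psi (Y700.WM M) x} = Ioi (-N) := by
    ext x
    simp only [mem_ofPred_eq, mem_Ioi]
    set t : ℝ := x / N with ht
    have hx' : x = N * t := by rw [ht]; field_simp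
    have h2 : Y700.psi (Y700.WM M) x = N ^ 3 * ((t + 1) * (4 * t ^ 2 - 5 * t + 23)) := by
      rw [psi_WM M hM, hx', hMN]
      ring
    rw [h2]
    have h3 : 0 < 4 * t ^ 2 - 5 * t + 23 := by nlinarith [sq_nonneg (t - 5 / 8)]
    have h4 : (0 : ℝ) < N ^ 3 := by positivity
    rw [mul_pos_iff_of_pos_left h4, mul_pos_iff_of_pos_right h3, hx']
    constructor
    · intro h
      nlinarith
    · intro h
      by_contra hn
      push Not at hn
      nlinarith
  have himg2 : (fun x => N * (p x + 1 / 12)) '' Ioo (0 : ℝ) Om = Ioi (-N) := by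
    have h2 : (fun x => N * (p x + 1 / 12)) '' Ioo (0 : ℝ) Om =
        (fun v => N * (v + 1 / 12)) '' (p '' Ioo (0 : ℝ) Om) := by
      rw [image_image]
    rw [h2, himg]
    ext v
    simp only [mem_image, mem_Ioi]
    constructor
    · rintro ⟨w, hw, rfl⟩
      nlinarith
    · intro hv
      refine ⟨v / N - 1 / 12, ?_, by field_simp; ring⟩
      have : -1 < v / N := by rw [lt_div_iff₀ hN0]; linarith
      linarith
  have hinj2 : InjOn (fun x => N * (p x + 1 / 12)) (Ioo (0 : ℝ) Om) := by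
    intro x hx y hy hxy
    apply hinj hx hy
    have h2 : N * (p x + 1 / 12) = N * (p y + 1 / 12) := hxy
    have := mul_left_cancel₀ hN0.ne' h2
    linarith
  have hder : ∀ x ∈ Ioo (0 : ℝ) Om,
      HasDerivWithinAt (fun x => N * (p x + 1 / 12)) (N * q x) (Ioo (0 : ℝ) Om) x := by
    intro x hx
    exact (((hd x hx).add_const _).const_mul _).hasDerivWithinAt
  rw [Y700.Omega, hset, ← himg2,
    integral_image_eq_integral_abs_deriv_smul measurableSet_Ioo hder hinj2]
  have hconst : ∀ x ∈ Ioo (0 : ℝ) Om,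
      |N * q x| • (2 / Real.sqrt (Y700.psi (Y700.WM M) (N * (p x + 1 / 12)))) =
        2 / Real.sqrt N := by
    intro x hx
    have hqx := hq x hx
    have h2 : Y700.psi (Y700.WM M) (N * (p x + 1 / 12)) = N * (N * (-q x)) ^ 2 := by
      rw [hpsi, ← hode x hx]
      ring
    have h3 : 0 < N * (-q x) := mul_pos hN0 (by linarith)
    rw [h2, Real.sqrt_mul hN0.le, Real.sqrt_sq h3.le, smul_eq_mul]
    have h4 : |N * q x| = N * (-q x) := by
      rw [← abs_neg, abs_of_pos]
      · ring
      · linarith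
    rw [h4]
    have h5 : 0 < Real.sqrt N := Real.sqrt_pos.2 hN0
    rw [mul_div_assoc', div_eq_div_iff (mul_ne_zero h5.ne' h3.ne') h5.ne']
    ring
  rw [setIntegral_congr_fun measurableSet_Ioo hconst]
  simp only [integral_const, MeasurableSet.univ, measureReal_restrict_apply, univ_inter,
    smul_eq_mul, Real.volume_real_Ioo]
  rw [sub_zero, max_eq_left hOm.le]
  ring

theorem t_OMEGA : Pool.Agent.Z704.S_OMEGA :=
  fun L Op Om hOp hOm h2 h3 hL M hM hM0 => omega_neg L Op Om hOp hOm h2 h3 hL M hM hM0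

end Pool.Agent.Z388
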