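import Pool.Agent.Z704.Defs
import Pool.Agent.Y700.Lm

/-!
# The central values of the negative twists of `X_0(14)` (helper700's part Z704-VAL)

Adaptation of `Pool/Agent/Y700/Ap.lean` and `Pool/Agent/Y700/Lm.lean` to negative `M`.
-/

set_option autoImplicit false
set_option linter.style.haveILetI false

open Complex Filter Topology Set UpperHalfPlane MatrixGroups CongruenceSubgroup ZMod

namespace Pool.Agent.Z388

open Pool.Agent.W97.MT Pool.Agent.Y687 Pool.Agent.Y700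
open Pool.Agent.H491R3.J (OS)

open scoped Classical in
theorem ap_odd_neg {n : ℕ} (hn : n % 4 = 3) (p : ℕ) [Fact p.Prime] (hp : p ≠ 2) (h : ¬ p ∣ n) :
    ap (WM (-(n : ℤ))) p = jacobiSym p n * ap E14 p := by
  have hpp : p.Prime := Fact.out
  have hM0 : ((-(n : ℤ) : ℤ) : ZMod p) ≠ 0 := by
    intro h1
    rw [ZMod.intCast_zmod_eq_zero_iff_dvd, dvd_neg, Int.natCast_dvd_natCast] at h1
    exact h h1
  have h5 : quadraticChar (ZMod p) ((-(n : ℤ) : ℤ) : ZMod p) = jacobiSym p n := by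
    have h6 : quadraticChar (ZMod p) ((-(n : ℤ) : ℤ) : ZMod p) = legendreSym p (-(n : ℤ)) := by
      rw [legendreSym]
    have hodd := hpp.odd_of_ne_two hp
    rw [h6, jacobiSym.legendreSym.to_jacobiSym, jacobiSym.neg _ hodd,
      ZMod.χ₄_nat_eq_if_mod_four]
    have hp2 : p % 2 = 1 := Nat.odd_iff.1 hodd
    rw [if_neg (by omega)]
    rcases (by omega : p % 4 = 1 ∨ p % 4 = 3) with h7 | h7
    · rw [if_pos h7, one_mul]
      exact (jacobiSym.quadratic_reciprocity_one_mod_four h7 (Nat.odd_iff.2 (by omega))).symm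
    · rw [if_neg (by omega), jacobiSym.quadratic_reciprocity_three_mod_four hn h7]
      ring
  rw [← WM_one]
  unfold ap
  rw [affCount_odd (by omega) p hp, affCount_odd (by norm_num) p hp, ← h5, sub_add_cancel_left,
    sub_add_cancel_left, mul_neg, Finset.mul_sum]
  congr 1
  symm
  refine Fintype.sum_equiv (Equiv.mulLeft₀ ((-(n : ℤ) : ℤ) : ZMod p) hM0) _ _ fun x => ?_
  have h4 : quadraticChar (ZMod p) ((-(n : ℤ) : ℤ) : ZMod p) =
      quadraticChar (ZMod p) (((-(n : ℤ) : ℤ) : ZMod p) ^ 3) := by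
    rw [pow_succ, map_mul, quadraticChar_sq_one' hM0, one_mul]
  rw [h4, ← map_mul, Equiv.mulLeft₀_apply]
  congr 1
  push_cast
  ring

open scoped Classical in
theorem ap_two_neg {n : ℕ} (hn : n % 4 = 3) : ap (WM (-(n : ℤ))) 2 = -jacobiSym 2 n := by
  have hodd : Odd n := Nat.odd_iff.2 (by omega)
  rw [jacobiSym.at_two hodd, ZMod.χ₈_nat_eq_if_mod_eight]
  obtain ⟨a, b, c, hW, ha, hb, hc⟩ := WM_coeff (M := -(n : ℤ)) (by omega)
  unfold ap affCount
  rw [hW]
  rcases (by omega : n % 8 = 7 ∨ n % 8 = 3) with h8 | h8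
  · obtain ⟨k, hk⟩ : ∃ k : ℤ, -(n : ℤ) = 8 * k + 1 := ⟨-(n : ℤ) / 8, by omega⟩
    have a0 : (a : ZMod 2) = 0 := (ZMod.intCast_zmod_eq_zero_iff_dvd a 2).2 ⟨k, by push_cast; omega⟩
    have b0 : (b : ZMod 2) = 0 := (ZMod.intCast_zmod_eq_zero_iff_dvd b 2).2
      ⟨144 * k ^ 2 + 36 * k + 2, by push_cast; rw [hk] at hb; linarith⟩
    have c0 : (c : ZMod 2) = 0 := (ZMod.intCast_zmod_eq_zero_iff_dvd c 2).2
      ⟨-(1472 * k ^ 3 + 552 * k ^ 2 + 69 * k + 3), by push_cast; rw [hk] at hc; linarith⟩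
    have e : Nat.card {P : ZMod 2 × ZMod 2 //
        ((⟨1, a, 1, b, c⟩ : WeierstrassCurve ℤ).map (Int.castRingHom (ZMod 2))).toAffine.Equation
          P.1 P.2} = Nat.card {P : ZMod 2 × ZMod 2 // P.2 ^ 2 + P.1 * P.2 + P.2 = P.1 ^ 3} := by
      refine Nat.card_congr (Equiv.subtypeEquivRight fun P => ?_)
      rw [WeierstrassCurve.Affine.equation_iff]
      simp only [WeierstrassCurve.map, map_one, eq_intCast, a0, b0, c0]
      ring_nf
    rw [e, Nat.card_eq_fintype_card]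
    have e2 : Fintype.card {P : ZMod 2 × ZMod 2 // P.2 ^ 2 + P.1 * P.2 + P.2 = P.1 ^ 3} = 3 := by
      decide
    have h3 : n % 2 = 1 := by omega
    simp only [e2, h3, h8]
    norm_num
  · obtain ⟨k, hk⟩ : ∃ k : ℤ, -(n : ℤ) = 8 * k + 5 := ⟨-(n : ℤ) / 8, by omega⟩
    have a0 : (a : ZMod 2) = 1 := by
      have : a = 2 * k + 1 := by omega
      rw [this]
      push_cast
      have : (2 : ZMod 2) = 0 := rfl
      rw [this]
      ring
    have b0 : (b : ZMod 2) = 0 := (ZMod.intCast_zmod_eq_zero_iff_dvd b 2).2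
      ⟨144 * k ^ 2 + 180 * k + 56, by push_cast; rw [hk] at hb; linarith⟩
    have c0 : (c : ZMod 2) = 1 := by
      have : c = 2 * (-(1472 * k ^ 3 + 2760 * k ^ 2 + 1725 * k + 360)) + 1 := by
        rw [hk] at hc; linarith
      rw [this]
      push_cast
      have : (2 : ZMod 2) = 0 := rfl
      rw [this]
      ring
    have e : Nat.card {P : ZMod 2 × ZMod 2 //
        ((⟨1, a, 1, b, c⟩ : WeierstrassCurve ℤ).map (Int.castRingHom (ZMod 2))).toAffine.Equation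
          P.1 P.2} = Nat.card {P : ZMod 2 × ZMod 2 //
            P.2 ^ 2 + P.1 * P.2 + P.2 = P.1 ^ 3 + P.1 ^ 2 + 1} := by
      refine Nat.card_congr (Equiv.subtypeEquivRight fun P => ?_)
      rw [WeierstrassCurve.Affine.equation_iff]
      simp only [WeierstrassCurve.map, map_one, eq_intCast, a0, b0, c0]
      ring_nf
    rw [e, Nat.card_eq_fintype_card]
    have e2 : Fintype.card {P : ZMod 2 × ZMod 2 //
        P.2 ^ 2 + P.1 * P.2 + P.2 = P.1 ^ 3 + P.1 ^ 2 + 1} = 1 := by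
      decide
    have h3 : n % 2 = 1 := by omega
    simp only [e2, h3, h8]
    norm_num

theorem dvd_Delta_neg {n : ℕ} (hn : n % 4 = 3) {p : ℕ} (hp : p.Prime) :
    (p : ℤ) ∣ (WM (-(n : ℤ))).Δ ↔ p ∣ 14 ∨ p ∣ n := by
  rw [Delta_WM (by omega)]
  have e : (-(2 ^ 6 * 7 ^ 3) * (-(n : ℤ)) ^ 6) = -(((2 ^ 6 * 7 ^ 3 * n ^ 6 : ℕ) : ℤ)) := by
    push_cast; ring
  rw [e, dvd_neg, Int.natCast_dvd_natCast, hp.dvd_mul, hp.dvd_mul]
  constructor
  · rintro ((h | h) | h)
    · exact Or.inl ((hp.dvd_of_dvd_pow h).trans (by norm_num))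
    · exact Or.inl ((hp.dvd_of_dvd_pow h).trans (by norm_num))
    · exact Or.inr (hp.dvd_of_dvd_pow h)
  · rintro (h | h)
    · rw [show (14 : ℕ) = 2 * 7 by norm_num, hp.dvd_mul] at h
      rcases h with h | h
      · exact Or.inl (Or.inl (dvd_pow h (by norm_num)))
      · exact Or.inl (Or.inr (dvd_pow h (by norm_num)))
    · exact Or.inr (dvd_pow h (by norm_num))

/-- the square of the Gauss sum -/
theorem gs_sq_neg (d : OS) (h4 : d.1 % 4 = 3) :
    (gaussSum (H491R3.J.chi d) (stdAddChar (N := d.1))) ^ 2 = -d.1 := by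
  have h1 := Pool.Agent.W378.CY.gauss_prod d.1 (H491R3.J.chi d) (H491R3.J.chi_primitive d)
  rw [H491R3.J.chi_inv d, H491R3.J.chi_neg_one, if_neg (by omega), neg_one_mul] at h1
  rw [sq, ← h1, neg_neg]

/-- the `L`-function of the twist by `-n` -/
theorem exists_LM_neg (n : ℕ) [NeZero n] (hodd : Odd n) (hsq : Squarefree n) (h1 : 1 < n)
    (h4 : n % 4 = 3) (h14 : Nat.Coprime n 14) :
    ∃ (f : ℂ → ℂ) (τ : ℂ), IsL (WM (-(n : ℤ))) f ∧ τ ^ 2 = -n ∧
      τ * f 1 = ∑ u : (ZMod n)ˣ, ((jacobiSym (((u : ZMod n).val : ℕ) : ℤ) n : ℤ) : ℂ) *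
        II (((u : ZMod n).val : ℚ) / n) := by
  classical
  set d : OS := ⟨n, hodd, hsq, h1⟩ with hd
  obtain ⟨g, hg1, hg2, hg3⟩ := exists_L (q := n) h14 (H491R3.J.chi d) (H491R3.J.chi_primitive d)
  have hchi : ∀ m : ℕ, H491R3.J.chi d (m : ZMod n) = ((jacobiSym (m : ℤ) n : ℤ) : ℂ) :=
    H491R3.J.chi_natCast d
  refine ⟨g, gaussSum (H491R3.J.chi d) (stdAddChar (N := n)), ⟨hg1, ?_⟩, gs_sq_neg d h4, ?_⟩
  · intro s hs
    refine (congrArg (fun g => HasProd g _) (funext fun p => ?_)).mp (hg2 s hs)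
    have hpp : (p : ℕ).Prime := p.2
    haveI : Fact (p : ℕ).Prime := ⟨hpp⟩
    rw [hchi]
    by_cases hpM : (p : ℕ) ∣ n
    · have hbad : ((p : ℕ) : ℤ) ∣ (WM (-(n : ℤ))).Δ := (dvd_Delta_neg h4 hpp).2 (Or.inr hpM)
      have h0 : jacobiSym ((p : ℕ) : ℤ) n = 0 := by
        rw [jacobiSym.eq_zero_iff_not_coprime, Int.gcd_natCast_natCast]
        intro hg
        have := Nat.dvd_gcd (dvd_refl (p : ℕ)) hpM
        rw [hg] at this
        exact hpp.one_lt.ne' (Nat.dvd_one.1 this)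
      have hp2 : (p : ℕ) ≠ 2 := by
        intro h
        rw [h] at hpM
        omega
      rw [h0, if_pos hbad, ap_dvd (by omega) _ hp2
        (by rw [dvd_neg]; exact_mod_cast hpM)]
      simp
    · have hx : jacobiSym ((p : ℕ) : ℤ) n = 1 ∨ jacobiSym ((p : ℕ) : ℤ) n = -1 := by
        refine jacobiSym.eq_one_or_neg_one ?_
        rw [Int.gcd_natCast_natCast]
        exact (Nat.Prime.coprime_iff_not_dvd hpp).2 hpM
      have hx2 : ((jacobiSym ((p : ℕ) : ℤ) n : ℤ) : ℂ) ^ 2 = 1 := by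
        rcases hx with h | h <;> rw [h] <;> norm_num
      have hap : ap (WM (-(n : ℤ))) p = jacobiSym ((p : ℕ) : ℤ) n * ap E14 p := by
        by_cases hp2 : (p : ℕ) = 2
        · rw [hp2, ap_two_neg h4, ap2]
          push_cast
          ring
        · exact ap_odd_neg h4 _ hp2 hpM
      rw [hap, hx2]
      have hΔ : ((p : ℕ) : ℤ) ∣ (WM (-(n : ℤ))).Δ ↔ (p : ℕ) ∣ 14 := by
        rw [dvd_Delta_neg h4 hpp]
        tauto
      by_cases h14' : (p : ℕ) ∣ 14
      · rw [if_pos h14', if_pos (hΔ.2 h14')]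
        push_cast
        ring
      · rw [if_neg h14', if_neg (fun h => h14' (hΔ.1 h)), mul_one, p_cpow hpp.ne_zero]
        push_cast
        ring
  · have hinv : (H491R3.J.chi d)⁻¹ = H491R3.J.chi d := H491R3.J.chi_inv d
    rw [hinv] at hg3
    rw [hg3]
    refine Finset.sum_congr rfl fun u _ => ?_
    rw [← hchi, ZMod.natCast_zmod_val]

/-- the sum over the classes is purely imaginary -/
theorem sum_imag (M : ℕ) [NeZero M] (h4 : M % 4 = 3) :
    (∑ u : (ZMod M)ˣ, ((jacobiSym (((u : ZMod M).val : ℕ) : ℤ) M : ℤ) : ℂ) *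
        II (((u : ZMod M).val : ℚ) / M)).re = 0 := by
  set T := ∑ u : (ZMod M)ˣ, ((jacobiSym (((u : ZMod M).val : ℕ) : ℤ) M : ℤ) : ℂ) *
        II (((u : ZMod M).val : ℚ) / M) with hT
  have h : T = -starRingEnd ℂ T := by
    rw [hT, map_sum, ← Finset.sum_neg_distrib]
    refine Fintype.sum_equiv (Equiv.neg (ZMod M)ˣ) _ _ fun u => ?_
    rw [map_mul, map_intCast, ← II_conj]
    haveI : Nontrivial (ZMod M) := ZMod.nontrivial_iff.2 (by omega)
    have hu0 : (u : ZMod M) ≠ 0 := u.ne_zero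
    haveI : NeZero (u : ZMod M) := ⟨hu0⟩
    have hval : (((Equiv.neg (ZMod M)ˣ) u : (ZMod M)ˣ) : ZMod M).val = M - (u : ZMod M).val := by
      rw [Equiv.neg_apply, Units.val_neg, ZMod.val_neg_of_ne_zero]
    have hlt : (u : ZMod M).val ≤ M := (ZMod.val_lt _).le
    rw [hval]
    have hJ : jacobiSym ((M - (u : ZMod M).val : ℕ) : ℤ) M =
        -jacobiSym (((u : ZMod M).val : ℕ) : ℤ) M := by
      rw [Nat.cast_sub hlt]
      rw [show ((M : ℤ) - (((u : ZMod M).val : ℕ) : ℤ)) = -(((u : ZMod M).val : ℕ) : ℤ) + M * 1 by ring]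
      have e2 : jacobiSym (-(((u : ZMod M).val : ℕ) : ℤ) + M * 1) M =
          jacobiSym (-(((u : ZMod M).val : ℕ) : ℤ)) M := by
        refine jacobiSym.mod_left' ?_
        rw [Int.add_mul_emod_self_left]
      rw [e2, jacobiSym.neg _ (Nat.odd_iff.2 (by omega)), ZMod.χ₄_nat_eq_if_mod_four, h4]
      have : M % 2 = 1 := by omega
      rw [this]
      norm_num
    rw [hJ]
    have hI : II (((u : ZMod M).val : ℚ) / M) =
        II (-(((M - (u : ZMod M).val : ℕ) : ℚ) / M)) := by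
      have hMQ : (M : ℚ) ≠ 0 := by exact_mod_cast (by omega : M ≠ 0)
      have e3 : -(((M - (u : ZMod M).val : ℕ) : ℚ) / M) + 1 = ((u : ZMod M).val : ℚ) / M := by
        rw [Nat.cast_sub hlt]
        field_simp
        ring
      rw [← e3, II_add_one]
    rw [hI]
    push_cast
    ring
  have h3 := congrArg Complex.re h
  rw [Complex.neg_re, Complex.conj_re] at h3
  linarith

/-- the central value -/
theorem value_neg {n : ℕ} (hodd : Odd n) (hsq : Squarefree n) (h1 : 1 < n) (h4 : n % 4 = 3)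
    (h14 : Nat.Coprime n 14) {s : ℚ → ℤ} {Om : ℝ} (hs : ∀ r : ℚ, (3 : ℝ) * (II r).im = s r * Om) :
    ∃ (f : ℂ → ℂ) (ε : ℤ), IsL (WM (-(n : ℤ))) f ∧ (ε = 1 ∨ ε = -1) ∧
      f 1 = ((ε * SS s n n * Om / (3 * Real.sqrt n) : ℝ) : ℂ) := by
  haveI : NeZero n := ⟨by omega⟩
  obtain ⟨f, τ, hf, hτ, hv⟩ := exists_LM_neg n hodd hsq h1 h4 h14
  have hre := sum_imag n h4
  have him : (∑ u : (ZMod n)ˣ, ((jacobiSym (((u : ZMod n).val : ℕ) : ℤ) n : ℤ) : ℂ) *
        II (((u : ZMod n).val : ℚ) / n)).im * 3 = SS s n n * Om := by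
    unfold SS
    rw [sum_rrC (M := n) (fun a => ((jacobiSym (a : ℤ) n : ℤ) : ℂ) * II ((a : ℚ) / n)) |>.symm,
      Complex.im_sum]
    push_cast
    rw [Finset.sum_mul, Finset.sum_mul]
    refine Finset.sum_congr rfl fun a _ => ?_
    have h3 : ((jacobiSym (a : ℤ) n : ℤ) : ℂ) = (((jacobiSym (a : ℤ) n : ℤ) : ℝ) : ℂ) := by
      push_cast; rfl
    rw [h3, Complex.im_ofReal_mul]
    have := hs ((a : ℚ) / n)
    linear_combination ((jacobiSym (a : ℤ) n : ℝ)) * this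
  set T := ∑ u : (ZMod n)ˣ, ((jacobiSym (((u : ZMod n).val : ℕ) : ℤ) n : ℤ) : ℂ) *
        II (((u : ZMod n).val : ℚ) / n) with hT
  have hTr : T = ((SS s n n * Om / 3 : ℝ) : ℂ) * Complex.I := by
    apply Complex.ext
    · rw [Complex.re_ofReal_mul, Complex.I_re, mul_zero]
      exact hre
    · rw [Complex.im_ofReal_mul, Complex.I_im, mul_one]
      linarith
  have hMR : (0 : ℝ) < n := by exact_mod_cast (by omega : 0 < n)
  have hsq0 : (Real.sqrt n) ≠ 0 := (Real.sqrt_pos.2 hMR).ne'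
  have hcases : τ = Real.sqrt n * Complex.I ∨ τ = -(Real.sqrt n * Complex.I) := by
    have h5 : (τ - Real.sqrt n * Complex.I) * (τ + Real.sqrt n * Complex.I) = 0 := by
      have h6 : ((Real.sqrt n : ℝ) : ℂ) ^ 2 = n := by
        rw [← Complex.ofReal_pow, Real.sq_sqrt hMR.le]
        simp
      linear_combination hτ + h6 - ((Real.sqrt n : ℝ) : ℂ) ^ 2 * Complex.I_sq
    rcases mul_eq_zero.1 h5 with h | h
    · left; linear_combination h
    · right; linear_combination h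
  have hsqc : ((Real.sqrt n : ℝ) : ℂ) ≠ 0 := by exact_mod_cast hsq0
  have hI0 := Complex.I_ne_zero
  rcases hcases with h | h
  · refine ⟨f, 1, hf, Or.inl rfl, ?_⟩
    have h7 : ((Real.sqrt n : ℝ) : ℂ) * f 1 = ((SS s n n * Om / 3 : ℝ) : ℂ) := by
      apply mul_left_cancel₀ hI0
      rw [h, hTr] at hv
      linear_combination hv
    rw [Complex.ofReal_div, Complex.ofReal_mul (3 : ℝ)]
    rw [Complex.ofReal_div] at h7
    field_simp
    field_simp at h7
    push_cast at h7 ⊢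
    linear_combination h7
  · refine ⟨f, -1, hf, Or.inr rfl, ?_⟩
    have h7 : ((Real.sqrt n : ℝ) : ℂ) * f 1 = -((SS s n n * Om / 3 : ℝ) : ℂ) := by
      apply mul_left_cancel₀ hI0
      rw [h, hTr] at hv
      linear_combination -hv
    rw [Complex.ofReal_div, Complex.ofReal_mul (3 : ℝ)]
    rw [Complex.ofReal_div] at h7
    field_simp
    field_simp at h7
    push_cast at h7 ⊢
    linear_combination h7

theorem val_int (M : ℤ) (hM0 : M < 0) (hM4 : M % 4 = 1) (hsq : Squarefree M)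
    (h1 : 1 < M.natAbs) (h14 : Nat.Coprime M.natAbs 14) (sm : ℚ → ℤ) (Om : ℝ)
    (hs : ∀ r : ℚ, (3 : ℝ) * (II r).im = sm r * Om) :
    ∃ (f : ℂ → ℂ) (ε : ℤ), IsL (WM M) f ∧ (ε = 1 ∨ ε = -1) ∧
      f 1 = ((ε * SS sm M.natAbs M.natAbs * Om / (3 * Real.sqrt M.natAbs) : ℝ) : ℂ) := by
  obtain ⟨n, hn⟩ : ∃ n : ℕ, M = -(n : ℤ) := ⟨M.natAbs, by omega⟩
  have hsq' : Squarefree M.natAbs := Int.squarefree_natAbs.2 hsq
  have hna : M.natAbs = n := by omega
  rw [hna] at h1 h14 hsq' ⊢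
  rw [hn]
  exact value_neg (Nat.odd_iff.2 (by omega)) hsq' h1 (by omega) h14 hs

theorem t_VAL : Pool.Agent.Z704.S_VAL :=
  fun M hM0 hM4 hsq h1 h14 sm Om hs => val_int M hM0 hM4 hsq h1 h14 sm Om hs

end Pool.Agent.Z388
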